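import Pool.Agent.W495.TB.Final
import Pool.Agent.W495.TA.Main
import Pool.Agent.W515.TB.Comb4
import Pool.Agent.W636.TB.Flip
import Pool.Agent.W918.TB.Orb
import Pool.Agent.W902.TB.Honda
import Pool.Agent.W177.TB.WeilG
import Pool.Agent.W287.TB.SS2

/-!
# The theorem on abelian varieties of dimension at most four
-/

set_option autoImplicit false

namespace Pool.Agent.W495.TB

theorem four : S_four :=
  four_of_parts Pool.Agent.W366.TA.val Pool.Agent.W64.TA.ru Pool.Agent.W67.TA.basis
    Pool.Agent.W351.TA.expand Pool.Agent.W82.TA.pull Pool.Agent.W333.TA.closed1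
    Pool.Agent.W976.TA.push Pool.Agent.W515.TB.comb4 Pool.Agent.W636.TB.flip2
    Pool.Agent.W918.TB.orb Pool.Agent.W902.TB.honda Pool.Agent.W177.TB.weilG
    Pool.Agent.W287.TBSS.ss2

end Pool.Agent.W495.TB
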