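import Pool.Agent.W495.TB.Stms

/-!
# Abelian varieties of dimension at most four over finite fields: the assembly of the proof
-/

set_option autoImplicit false
set_option linter.unusedSectionVars false
set_option linter.unusedVariables false

namespace Pool.Agent.W495.TB

open NumberField Pool.Agent.H204R3.CM Pool.Agent.W547.KB Pool.Agent.W547.LD Module
  Pool.Agent.W495.TA
open scoped TensorProduct

noncomputable section

section sets

variable {p : ℕ} [Fact p.Prime] {ν : PadicAlgCl p ≃+* ℂ}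
  {L : Type} [Field L] [NumberField L] [IsCMField L] [IsGalois ℚ L] (j : L →+* ℂ)
  {W : Type} [MulAction (L ≃ₐ[ℚ] L) W]

/-- The half system of a point. -/
def ys (e : W → ℤ) (w : W) : Set (L ≃ₐ[ℚ] L) := {σ | e (σ • w) = 1}

theorem mem_ys (e : W → ℤ) (w : W) (σ : L ≃ₐ[ℚ] L) : σ ∈ ys e w ↔ e (σ • w) = 1 := Iff.rfl

theorem tr_ys (e : W → ℤ) (w : W) (τ : L ≃ₐ[ℚ] L) : tr τ (ys e w) = ys e (τ • w) := by
  ext σ
  rw [mem_tr, mem_ys, mem_ys, mul_smul]

theorem isHalf_ys {e : W → ℤ} (he : IsSign (cc L) e) (w : W) : IsHalf (ys e w : Set (L ≃ₐ[ℚ] L)) := by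
  intro σ
  rw [mem_ys, mem_ys, mul_smul, he.odd]
  rcases he.sign (σ • w) with h | h <;> rw [h] <;> norm_num

theorem ite_ys {e : W → ℤ} (he : IsSign (cc L) e) (w : W) (σ : L ≃ₐ[ℚ] L)
    [Decidable (σ ∈ (ys e w : Set (L ≃ₐ[ℚ] L)))] :
    (if σ ∈ (ys e w : Set (L ≃ₐ[ℚ] L)) then (1 : ℤ) else -1) = e (σ • w) := by
  by_cases h : σ ∈ (ys e w : Set (L ≃ₐ[ℚ] L))
  · rw [if_pos h]
    exact ((mem_ys e w σ).1 h).symm
  · rw [if_neg h]
    rcases he.sign (σ • w) with h1 | h1
    · exact absurd h1 h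
    · exact h1.symm

theorem tf_ys {e : W → ℤ} (he : IsSign (cc L) e) (w : W) :
    tf p ν j (ys e w) = nf (Dec p ν j) e w := by
  classical
  funext σ
  unfold tf nf
  refine Finset.sum_congr rfl fun d _ => ?_
  by_cases hd : d ∈ Dec p ν j
  · rw [if_pos hd, if_pos hd, ← mul_smul, ← ite_ys he w (d * σ)]
  · rw [if_neg hd, if_neg hd]

end sets

section weights

variable {p : ℕ} [Fact p.Prime] {ν : PadicAlgCl p ≃+* ℂ}
  {L : Type} [Field L] [NumberField L] [IsCMField L] [IsGalois ℚ L] (j : L →+* ℂ)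
  (X : CMAV)

/-- The signs of the weights. -/
def epsX (w : Wt X L) : ℤ := eps j (X.factor w.1) w.2

theorem isSign_epsX : IsSign (cc L) (epsX j X) where
  sign w := (isSign_eps j (X.factor w.1)).sign w.2
  odd w := (isSign_eps j (X.factor w.1)).odd w.2

theorem tf_St (w : Wt X L) : tf p ν j (St j w) = nf (Dec p ν j) (epsX j X) w := by
  have h := tf_hs (p := p) (ν := ν) j (X.factor w.1) w.2
  exact h

include j in
theorem cc_ne_wt (w : Wt X L) : cc L • w ≠ w := by
  intro h
  have h1 := (isSign_epsX j X).odd w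
  rw [h] at h1
  rcases (isSign_epsX j X).sign w with h2 | h2 <;> rw [h2] at h1 <;> norm_num at h1

theorem tf_smul_wt (w : Wt X L) (g h : L ≃ₐ[ℚ] L) :
    tf p ν j (St j (g • w)) h = tf p ν j (St j w) (h * g) := by
  rw [tf_St, tf_St]
  unfold nf
  refine Finset.sum_congr rfl fun d _ => ?_
  rw [mul_smul]

theorem tf_cc_wt (w : Wt X L) (h : L ≃ₐ[ℚ] L) :
    tf p ν j (St j (cc L • w)) h = -tf p ν j (St j w) h := by
  rw [tf_St, tf_St]
  unfold nf
  rw [← Finset.sum_neg_distrib]
  refine Finset.sum_congr rfl fun d _ => ?_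
  by_cases hd : d ∈ Dec p ν j
  · rw [if_pos hd, if_pos hd]
    have h1 : d • h • cc L • w = cc L • d • h • w := by
      rw [← mul_smul, ← mul_smul, ← mul_smul, ← mul_smul]
      congr 1
      rw [mul_assoc, ← cc_comm j h, ← mul_assoc, ← cc_comm j d, mul_assoc]
    rw [h1, (isSign_epsX j X).odd]
  · rw [if_neg hd, if_neg hd, neg_zero]

variable {X}

theorem finite_wt (hX : Big X j) : Finite (Wt X L) := by
  have : ∀ i, Finite ((X.factor i).E →+* L) := by
    intro i
    refine Finite.of_injective (fun φ : (X.factor i).E →+* L => j.comp φ) ?_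
    intro φ φ' h
    ext a
    exact j.injective (RingHom.congr_fun h a)
  infer_instance

theorem card_wt_eq (hX : Big X j) [Fintype (Wt X L)] :
    Fintype.card (Wt X L) = finrank ℚ X.H1 := by
  classical
  have hf : ∀ i, Fintype ((X.factor i).E →+* L) := by
    intro i
    have : Finite ((X.factor i).E →+* L) := by
      refine Finite.of_injective (fun φ : (X.factor i).E →+* L => j.comp φ) ?_
      intro φ φ' h
      ext a
      exact j.injective (RingHom.congr_fun h a)
    exact Fintype.ofFinite _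
  have h1 : Fintype.card (Wt X L) = ∑ i, Fintype.card ((X.factor i).E →+* L) := by
    rw [← Nat.card_eq_fintype_card, Nat.card_sigma]
    exact Finset.sum_congr rfl fun i _ => Nat.card_eq_fintype_card
  have h2 : finrank ℚ X.H1 = ∑ i, finrank ℚ (X.factor i).E := by
    exact Module.finrank_pi_fintype ℚ
  rw [h1, h2]
  exact Finset.sum_congr rfl fun i _ => card_emb (A := X.factor i) (hX i)

end weights

/-- The blocks. -/
theorem block (hval : S_val) (hru : S_ru) (hbasis : S_basis) (hpull : S_pull) (hcl : S_closed1)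
    (hpush : S_push) (hflip : S_flip2) (horb : S_orb) (hhonda : S_honda) (hweil : S_weilG)
    (hss : S_ss2) (p : ℕ) [Fact p.Prime] (ν : PadicAlgCl p ≃+* ℂ) (Ω : Type) [Field Ω] [CharZero Ω]
    (L : Type) [Field L] [NumberField L] [IsCMField L] [IsGalois ℚ L] (j : L →+* ℂ) (jO : L →+* Ω)
    (X : CMAV) [Fintype (Wt X L)] (s : Wt X L → ℤ)
    (hs : IsPartSign (L ≃ₐ[ℚ] L) (cc L) s)
    (hst : ∀ w w', tf p ν j (St j w) = tf p ν j (St j w') → s w = s w')
    (hrel : ∀ g, ∑ w, s w * tf p ν j (St j w) g = 0) (m : ℕ)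
    (hm : m = Nat.card {w : Wt X L // s w = 1}) :
    (m = 4 → AlgM p ν j jO {w : Wt X L // s w = 1} fun w => tf p ν j (St j w.1)) ∧
    (m = 3 → AlgM p ν j jO ({w : Wt X L // s w = 1} ⊕ Fin 1)
      (Sum.elim (fun w => tf p ν j (St j w.1)) fun _ => 0)) := by
  classical
  rcases Classical.em (m = 3 ∨ m = 4) with hm34 | hm34
  swap
  · constructor
    · intro h
      exact absurd (Or.inr h) hm34
    · intro h
      exact absurd (Or.inl h) hm34
  obtain ⟨ε', r, u, hε', hnf, hr, hu, hbal, hdec⟩ := hflip (L ≃ₐ[ℚ] L) (Wt X L) (cc L)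
    (fun g => cc_comm j g) cc_cc (cc_ne_wt j X) (Dec p ν j) (epsX j X) (isSign_epsX j X) s hs
    (by rw [← hm]; exact hm34) (fun g => by
      rw [← hrel g]
      exact Finset.sum_congr rfl fun w _ => by rw [tf_St])
  rw [← hm] at hr
  obtain ⟨c1, c2, c3, c4⟩ := hcl hval hru p ν Ω L j jO
  -- a point with positive sign
  obtain ⟨x₀, hx₀⟩ : ∃ x₀ : Wt X L, s x₀ = 1 := by
    by_contra hcon
    push Not at hcon
    have h1 : IsEmpty {w : Wt X L // s w = 1} := ⟨fun w => hcon w.1 w.2⟩
    rw [Nat.card_of_isEmpty] at hm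
    omega
  -- the subgroup
  have hchi : ∀ τ : L ≃ₐ[ℚ] L, (s (τ • x₀) = 1 ∧ ∀ w, s (τ • w) = s w) ∨
      (s (τ • x₀) = -1 ∧ ∀ w, s (τ • w) = -s w) := by
    intro τ
    rcases hs.semi τ with h | h
    · exact Or.inl ⟨by rw [h, hx₀], h⟩
    · exact Or.inr ⟨by rw [h, hx₀], h⟩
  let N : Subgroup (L ≃ₐ[ℚ] L) :=
    { carrier := {τ | s (τ • x₀) = 1}
      one_mem' := by
        change s ((1 : L ≃ₐ[ℚ] L) • x₀) = 1
        rw [one_smul, hx₀]
      mul_mem' := by
        intro τ τ' h h'
        change s ((τ * τ') • x₀) = 1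
        rw [mul_smul]
        rcases hchi τ with h1 | h1
        · rw [h1.2]
          exact h'
        · have h2 : s (τ • x₀) = 1 := h
          rw [h1.1] at h2
          norm_num at h2
      inv_mem' := by
        intro τ h
        change s (τ⁻¹ • x₀) = 1
        rcases hchi τ with h1 | h1
        · rw [← h1.2 (τ⁻¹ • x₀), smul_inv_smul, hx₀]
        · have h2 : s (τ • x₀) = 1 := h
          rw [h1.1] at h2
          norm_num at h2 }
  have hmemN : ∀ τ, τ ∈ N ↔ s (τ • x₀) = 1 := fun τ => Iff.rfl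
  have hNsmul : ∀ τ ∈ N, ∀ w, s (τ • w) = s w := by
    intro τ hτ
    rcases hchi τ with h1 | h1
    · exact h1.2
    · rw [hmemN, h1.1] at hτ
      norm_num at hτ
  have hN : IsImag N := by
    constructor
    · rw [hmemN, hs.odd, hx₀]
      norm_num
    · intro τ hτ
      rw [hmemN] at hτ ⊢
      rw [mul_smul, hs.odd]
      rcases hchi τ with h1 | h1
      · exact absurd h1.1 hτ
      · rw [h1.1, neg_neg]
  have hset : ∀ τ : L ≃ₐ[ℚ] L, s (τ • x₀) = 1 ∨ s (τ • x₀) = -1 := by
    intro τ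
    rcases hchi τ with h1 | h1
    · exact Or.inl h1.1
    · exact Or.inr h1.1
  -- the sign function on the group
  let e0 : Set (L ≃ₐ[ℚ] L) := {σ | u * s (σ • x₀) = 1}
  have he0half : IsHalf e0 := by
    intro σ
    change u * s (σ • x₀) = 1 ↔ ¬ (u * s ((cc L * σ) • x₀) = 1)
    rw [mul_smul, hs.odd]
    rcases hu with h | h <;> rcases hset σ with h1 | h1 <;> rw [h, h1] <;> norm_num
  have he0tr : ∀ τ ∈ N, tr τ e0 = e0 := by
    intro τ hτ
    ext σ
    rw [mem_tr]
    change u * s ((σ * τ) • x₀) = 1 ↔ u * s (σ • x₀) = 1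
    rw [mul_smul]
    have h2 : s (σ • τ • x₀) = s (σ • x₀) := by
      rcases hs.semi σ with h | h
      · rw [h, h, hNsmul τ hτ]
      · rw [h, h, hNsmul τ hτ]
    rw [h2]
  -- the family
  let κ0 : Type := {w : Wt X L // s w = 1}
  let y : κ0 ⊕ Fin r → Set (L ≃ₐ[ℚ] L) := Sum.elim (fun w => ys ε' w.1) fun _ => e0
  have hy : ∀ k, IsHalf (y k) := by
    rintro (w | i)
    · exact isHalf_ys hε' w.1
    · exact he0half
  have hyN : ∀ τ ∈ N, ∃ e : κ0 ⊕ Fin r → κ0 ⊕ Fin r,
      Function.Injective e ∧ ∀ k, y (e k) = tr τ (y k) := by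
    intro τ hτ
    refine ⟨Sum.map (fun w => ⟨τ • w.1, by rw [hNsmul τ hτ]; exact w.2⟩) id, ?_, ?_⟩
    · refine Function.Injective.sumMap ?_ Function.injective_id
      intro w w' h
      have h1 : τ • w.1 = τ • w'.1 := congrArg Subtype.val h
      exact Subtype.ext (smul_left_cancel τ h1)
    · rintro (w | i)
      · exact (tr_ys ε' w.1 τ).symm
      · exact (he0tr τ hτ).symm
  obtain ⟨Q, _, x, f, hxq, hf⟩ := horb L N (κ0 ⊕ Fin r) y hyN
  have hx : ∀ q, IsHalf (x q) := by
    intro q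
    obtain ⟨k, hk⟩ := hxq q
    rw [hk]
    exact hy k
  have hstab : ∀ q, stab (x q) ≤ N := by
    intro q τ hτ
    obtain ⟨k, hk⟩ := hxq q
    rw [hk, mem_stab] at hτ
    rcases k with w | i
    · have h1 : tr τ (ys ε' w.1) = ys ε' w.1 := hτ
      rw [tr_ys] at h1
      have h2 : tf p ν j (St j (τ • w.1)) = tf p ν j (St j w.1) := by
        rw [tf_St, tf_St, ← hnf, ← hnf, ← tf_ys j hε', ← tf_ys j hε', h1]
      have h3 := hst _ _ h2
      rcases hchi τ with h4 | h4
      · exact h4.1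
      · rw [h4.2, w.2] at h3
        norm_num at h3
    · have h1 : tr τ e0 = e0 := hτ
      have h2 : (1 : L ≃ₐ[ℚ] L) ∈ tr τ e0 ↔ (1 : L ≃ₐ[ℚ] L) ∈ e0 := by rw [h1]
      rw [mem_tr, one_mul] at h2
      have h3 : u * s (τ • x₀) = 1 ↔ u * s ((1 : L ≃ₐ[ℚ] L) • x₀) = 1 := h2
      rw [one_smul, hx₀] at h3
      rw [hmemN]
      rcases hu with h | h <;> rcases hset τ with h5 | h5
      · exact h5
      · rw [h, h5] at h3
        norm_num at h3
      · exact h5
      · rw [h, h5] at h3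
        norm_num at h3
  have : Fintype (Orb N x) := Fintype.ofEquiv _ f
  have hcard : Fintype.card (Orb N x) = 4 ∨ Fintype.card (Orb N x) = 6 := by
    have h1 : Fintype.card (Orb N x) = m + r := by
      rw [← Fintype.card_congr f, Fintype.card_sum, Fintype.card_fin, hm,
        Nat.card_eq_fintype_card]
    rw [h1]
    exact hr
  have hbalanced : Balanced fun k : Orb N x => k.2.1 := by
    intro σ
    have h1 : ∑ k : Orb N x, (if σ ∈ k.2.1 then (1 : ℤ) else -1) =
        ∑ k : κ0 ⊕ Fin r, (if σ ∈ y k then (1 : ℤ) else -1) := by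
      rw [← Equiv.sum_comp f]
      refine Finset.sum_congr rfl fun k _ => ?_
      rw [hf k]
    refine Eq.trans ?_ (h1.trans ?_)
    · rfl
    rw [Fintype.sum_sum_type]
    have h2 := hbal σ x₀ hx₀
    have h3 : ∑ w : κ0, (if σ ∈ y (Sum.inl w) then (1 : ℤ) else -1) =
        ∑ w : Wt X L, if s w = 1 then ε' (σ • w) else 0 := by
      rw [← Finset.sum_filter, ← Finset.sum_subtype_eq_sum_filter]
      have h4 : (Finset.subtype (fun w : Wt X L => s w = 1) Finset.univ) = Finset.univ :=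
        Finset.subtype_univ _
      rw [h4]
      refine Finset.sum_congr rfl fun w _ => ?_
      exact ite_ys hε' w.1 σ
    have h5 : ∑ i : Fin r, (if σ ∈ y (Sum.inr i) then (1 : ℤ) else -1) =
        r * u * s (σ • x₀) := by
      have h6 : ∀ i : Fin r, (if σ ∈ y (Sum.inr i) then (1 : ℤ) else -1) = u * s (σ • x₀) := by
        intro i
        have h7 : σ ∈ y (Sum.inr i) ↔ u * s (σ • x₀) = 1 := Iff.rfl
        by_cases h8 : u * s (σ • x₀) = 1
        · rw [if_pos (h7.2 h8), h8]
        · rw [if_neg (fun h9 => h8 (h7.1 h9))]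
          rcases hu with h | h <;> rcases hset σ with h1 | h1
          · rw [h, h1] at h8
            norm_num at h8
          · rw [h, h1]
            norm_num
          · rw [h, h1]
            norm_num
          · rw [h, h1] at h8
            norm_num at h8
      rw [Finset.sum_congr rfl fun i _ => h6 i, Finset.sum_const, Finset.card_univ,
        Fintype.card_fin, nsmul_eq_mul]
      ring
    rw [h3, h5]
    exact h2
  have key1 : AlgM p ν j jO (Orb N x) fun k => tf p ν j k.2.1 :=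
    @hweil hhonda hval hru hbasis hpull p _ ν Ω _ _ L _ _ _ _ j jO N hN Q _ x hx hstab _ hcard
      hbalanced
  have hfy : ∀ k : κ0, tf p ν j (y (Sum.inl k)) = tf p ν j (St j k.1) := by
    intro k
    change tf p ν j (ys ε' k.1) = _
    rw [tf_ys j hε', hnf, tf_St]
  have key2 : AlgM p ν j jO (κ0 ⊕ Fin r) (Sum.elim (fun w => tf p ν j (St j w.1)) fun _ => 0) := by
    refine @c2 (Orb N x) (κ0 ⊕ Fin r) _ f.symm _ _ ?_ @key1
    intro k
    obtain ⟨k', rfl⟩ := f.surjective k
    rw [f.symm_apply_apply, hf k']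
    rcases k' with w | i
    · exact (hfy w).symm
    · change (0 : (L ≃ₐ[ℚ] L) → ℤ) = tf p ν j e0
      obtain ⟨d, hd, hds⟩ := hdec (Fin.pos i)
      have hDN : ¬ Dec p ν j ≤ N := by
        intro hle
        have h1 := hle hd
        rw [hmemN, hds, hx₀] at h1
        norm_num at h1
      obtain ⟨hz, -⟩ := hss hval p ν L j N hN hDN
      funext σ
      rcases hu with h | h
      · have h1 : e0 = (N : Set (L ≃ₐ[ℚ] L)) := by
          ext τ
          change u * s (τ • x₀) = 1 ↔ s (τ • x₀) = 1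
          rw [h, one_mul]
        rw [h1, hz σ]
        rfl
      · have h1 : e0 = (N : Set (L ≃ₐ[ℚ] L))ᶜ := by
          ext τ
          change u * s (τ • x₀) = 1 ↔ ¬ (s (τ • x₀) = 1)
          rcases hset τ with h2 | h2 <;> rw [h, h2] <;> norm_num
        rw [h1, Pool.Agent.W417.TA.tf_compl, hz σ, neg_zero]
        rfl
  have hcancel : 0 < r → ∀ (κ : Type) [Finite κ] (t : κ → (L ≃ₐ[ℚ] L) → ℤ),
      AlgM p ν j jO (κ ⊕ Fin 2) (Sum.elim t fun _ => 0) → AlgM p ν j jO κ t := by
    intro hr0 κ _ t ht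
    obtain ⟨d, hd, hds⟩ := hdec hr0
    have hDN : ¬ Dec p ν j ≤ N := by
      intro hle
      have h1 := hle hd
      rw [hmemN, hds, hx₀] at h1
      norm_num at h1
    obtain ⟨-, E, hE, w, hw⟩ := hss hval p ν L j N hN hDN
    exact @hpush hbasis p _ ν Ω _ _ L _ _ _ _ j jO E hE w hw κ _ t @ht
  constructor
  · intro h4
    have h5 : r = 0 ∨ r = 2 := by omega
    rcases h5 with h5 | h5
    · subst h5
      refine @c2 (κ0 ⊕ Fin 0) κ0 _ (Equiv.sumEmpty κ0 (Fin 0)) _ _ ?_ @key2
      rintro (w | i)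
      · rfl
      · exact i.elim0
    · subst h5
      exact @hcancel (by norm_num) κ0 _ _ @key2
  · intro h3
    have h5 : r = 1 ∨ r = 3 := by omega
    rcases h5 with h5 | h5
    · subst h5
      exact @key2
    · subst h5
      refine @hcancel (by norm_num) (κ0 ⊕ Fin 1) _ _ ?_
      refine @c2 (κ0 ⊕ Fin 3) ((κ0 ⊕ Fin 1) ⊕ Fin 2) _
        ((Equiv.sumCongr (Equiv.refl κ0) (finSumFinEquiv (m := 1) (n := 2)).symm).trans
          (Equiv.sumAssoc κ0 (Fin 1) (Fin 2)).symm) _ _ ?_ @key2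
      rintro (w | i)
      · rfl
      · change Sum.elim (Sum.elim (fun w : κ0 => tf p ν j (St j w.1)) fun _ => 0) (fun _ => 0)
          ((Equiv.sumAssoc κ0 (Fin 1) (Fin 2)).symm (Sum.inr ((finSumFinEquiv (m := 1) (n := 2)).symm i))) = 0
        rcases (finSumFinEquiv (m := 1) (n := 2)).symm i with k | k <;> rfl

/-- The theorem from its parts. -/
theorem four_of_parts (hval : S_val) (hru : S_ru) (hbasis : S_basis) (hexp : S_expand)
    (hpull : S_pull) (hcl : S_closed1) (hpush : S_push) (hcomb : S_comb4) (hflip : S_flip2)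
    (horb : S_orb) (hhonda : S_honda) (hweil : S_weilG) (hss : S_ss2) : S_four := by
  classical
  intro p _ ν Ω _ _ _ Y hY s m hs0 f hf
  rcases isEmpty_or_nonempty Y.X.I with hI | hI
  · -- the zero-dimensional case
    have hsub : Subsingleton (TM Ω Y) := by
      have h0 : Subsingleton Y.X.H1 := ⟨fun a b => funext fun i => (hI.false i).elim⟩
      refine ⟨fun a b => ?_⟩
      have h1 : ∀ c : TM Ω Y, c = 0 := by
        intro c
        induction c using TensorProduct.induction_on with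
        | zero => rfl
        | tmul x y => rw [Subsingleton.elim y 0, TensorProduct.tmul_zero]
        | add x y hx hy => rw [hx, hy, add_zero]
      rw [h1 a, h1 b]
    rcases Nat.eq_zero_or_pos m with hm | hm
    · subst hm
      have : IsEmpty (Fin (2 * 0)) := by
        rw [mul_zero]
        infer_instance
      exact Alg.unit f
    · have : f = 0 := by
        ext v
        have h2 : v ⟨0, by omega⟩ = 0 := Subsingleton.elim _ _
        rw [f.map_coord_zero ⟨0, by omega⟩ h2]
        rfl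
      rw [this]
      exact Alg.zero Y _
  obtain ⟨L, _, _, _, _, j, hj⟩ := exists_cm Y.X
  have hYj : Big Y.X j := hj
  let jO : L →+* Ω := ((IsAlgClosed.lift : L →ₐ[ℚ] Ω) : L →+* Ω)
  obtain ⟨e, h1, h2⟩ := hbasis p ν Ω L j jO Y hYj
  refine hexp p ν Ω L jO Y e h1 h2 _ f fun I hI => ?_
  have hbal := balanced jO hval hYj e h1 h2 s m hs0 f hf I hI
  have hinj : Function.Injective I := by
    intro k l hkl
    by_contra hne
    exact hI (f.map_eq_zero_of_eq _ (by rw [hkl]) hne)
  have := finite_wt j hYj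
  have := Fintype.ofFinite (Wt Y.X L)
  have hcard : Fintype.card (Wt Y.X L) ≤ 8 := (card_wt_eq j hYj).trans_le hY
  obtain ⟨c1, c2, c3, c4⟩ := hcl hval hru p ν Ω L j jO
  have hclosed : Closed (L ≃ₐ[ℚ] L) (AlgM p ν j jO) := ⟨c1, c2, c3, c4⟩
  have key := hcomb (L ≃ₐ[ℚ] L) (Wt Y.X L) (cc L) (fun g => cc_comm j g) cc_cc (cc_ne_wt j Y.X)
    (fun w => tf p ν j (St j w)) (fun g h w => tf_smul_wt j Y.X w g h)
    (fun w g => tf_cc_wt j Y.X w g) hcard (AlgM p ν j jO) hclosed ?_ (Fin (2 * m)) I hinj hbal ?_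
  · exact key Y hYj I fun k => rfl
  · intro s' hs' hzero hst hrel
    have hb := block hval hru hbasis hpull hcl hpush hflip horb hhonda hweil hss p ν Ω L j jO Y.X s'
      hs' hst hrel _ rfl
    exact hb
  · rw [Fintype.card_fin]
    exact even_two_mul m

end

end Pool.Agent.W495.TB
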