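import Pool.Agent.W495.TA.Final
import Pool.Agent.W417.TA.WeilA

/-!
# Abelian varieties of dimension at most four over finite fields: the parts of the proof
-/

set_option autoImplicit false

namespace Pool.Agent.W495.TB

open NumberField Pool.Agent.H204R3.CM Pool.Agent.W547.KB Pool.Agent.W547.LD Module
  Pool.Agent.W495.TA
open scoped TensorProduct

noncomputable section

/-- The main theorem: all Tate classes on all abelian varieties of dimension at most four. -/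
def S_four : Prop :=
  ∀ (p : ℕ) [Fact p.Prime] (ν : PadicAlgCl p ≃+* ℂ) (Ω : Type) [Field Ω] [IsAlgClosed Ω]
    [CharZero Ω] (Y : RedAV p ν) (_hY : Module.finrank ℚ Y.X.H1 ≤ 8) (s m : ℕ) (_hs : 0 < s)
    (f : (TM Ω Y) [⋀^Fin (2 * m)]→ₗ[Ω] Ω) (_hf : IsTateClass Ω Y s m f),
    Alg Ω Y (Fin (2 * m)) f

/-! ### Combinatorics -/

/-- A sign function on a part of a set with an action of `G` that is semi-invariant. -/
structure IsPartSign (G : Type) {X : Type} [Group G] [MulAction G X] (c : G) (s : X → ℤ) :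
    Prop where
  val : ∀ x, s x = 1 ∨ s x = -1 ∨ s x = 0
  odd : ∀ x, s (c • x) = -s x
  semi : ∀ g : G, (∀ x, s (g • x) = s x) ∨ ∀ x, s (g • x) = -s x

/-- The decomposition of balanced families without repetitions, at most four pairs. -/
def S_comb4 : Prop :=
  ∀ (G W : Type) [Group G] [Fintype G] [Fintype W] [MulAction G W] (c : G)
    (_ : ∀ g, c * g = g * c) (_ : c * c = 1) (_ : ∀ w : W, c • w ≠ w)
    (t : W → G → ℤ) (_ : ∀ (g h : G) (w : W), t (g • w) h = t w (h * g))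
    (_ : ∀ w g, t (c • w) g = -t w g) (_ : Fintype.card W ≤ 8)
    (Q : (κ : Type) → (κ → G → ℤ) → Prop) (_ : Closed G Q)
    (_ : ∀ s : W → ℤ, IsPartSign G c s → (∀ w, s w = 0 ↔ t w = 0) →
      (∀ w w', t w = t w' → s w = s w') → (∀ g, ∑ w, s w * t w g = 0) →
      (Nat.card {w // s w = 1} = 4 → Q {w : W // s w = 1} (fun w => t w.1)) ∧
      (Nat.card {w // s w = 1} = 3 →
        Q ({w : W // s w = 1} ⊕ Fin 1) (Sum.elim (fun w => t w.1) fun _ => 0)))
    (κ : Type) [Fintype κ] (I : κ → W) (_ : Function.Injective I) (_ : ∀ g, ∑ k, t (I k) g = 0)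
    (_ : Even (Fintype.card κ)), Q κ (fun k => t (I k))

/-- Changing the signs, three or four pairs of points. -/
def S_flip2 : Prop :=
  ∀ (G X : Type) [Group G] [Fintype G] [Fintype X] [MulAction G X] (c : G)
    (_ : ∀ g, c * g = g * c) (_ : c * c = 1) (_ : ∀ x : X, c • x ≠ x)
    (D : Subgroup G) (ε : X → ℤ) (_ : IsSign c ε) (s : X → ℤ) (_ : IsPartSign G c s)
    (_ : Nat.card {x // s x = 1} = 3 ∨ Nat.card {x // s x = 1} = 4)
    (_ : ∀ g, ∑ x, s x * nf D ε x g = 0),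
    ∃ (ε' : X → ℤ) (r : ℕ) (u : ℤ), IsSign c ε' ∧ (∀ x, nf D ε' x = nf D ε x) ∧
      (Nat.card {x // s x = 1} + r = 4 ∨ Nat.card {x // s x = 1} + r = 6) ∧ (u = 1 ∨ u = -1) ∧
      Bal (G := G) ε' s r u ∧ (0 < r → ∃ d ∈ D, ∀ x, s (d • x) = -s x)

/-- A finite family of sets that is stable under `N` is a family of orbits. -/
def S_orb : Prop :=
  ∀ (L : Type) [Field L] [NumberField L] [IsCMField L] [IsGalois ℚ L]
    (N : Subgroup (L ≃ₐ[ℚ] L)) (κ : Type) [Finite κ] (y : κ → Set (L ≃ₐ[ℚ] L))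
    (_ : ∀ τ ∈ N, ∃ e : κ → κ, Function.Injective e ∧ ∀ k, y (e k) = tr τ (y k)),
    ∃ (Q : Type) (_ : Fintype Q) (x : Q → Set (L ≃ₐ[ℚ] L)) (f : κ ≃ Orb N x),
      (∀ q, ∃ k, x q = y k) ∧ ∀ k, (f k).2.1 = y k

/-! ### Number theory and geometry -/

/-- The existence of Weil numbers with given valuations (Honda). -/
def S_honda : Prop :=
  S_val → ∀ (p : ℕ) [Fact p.Prime] (ν : PadicAlgCl p ≃+* ℂ) (L : Type) [Field L] [NumberField L]
    [IsCMField L] [IsGalois ℚ L] (j : L →+* ℂ) (S : Set (L ≃ₐ[ℚ] L)) (hS : IsHalf S),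
    ∃ (a : ℕ) (π : fld S), 0 < a ∧ IsFrobenius p ν (pairOf j S hS) a π

/-- Split Weil classes, in terms of half systems. -/
def S_weilG : Prop :=
  S_honda → S_val → S_ru → S_basis → S_pull →
  ∀ (p : ℕ) [Fact p.Prime] (ν : PadicAlgCl p ≃+* ℂ) (Ω : Type) [Field Ω] [CharZero Ω] (L : Type)
    [Field L] [NumberField L] [IsCMField L] [IsGalois ℚ L] (j : L →+* ℂ) (jO : L →+* Ω)
    (N : Subgroup (L ≃ₐ[ℚ] L)) (_ : IsImag N) (Q : Type) [Fintype Q]
    (x : Q → Set (L ≃ₐ[ℚ] L)) (_ : ∀ q, IsHalf (x q)) (_ : ∀ q, stab (x q) ≤ N)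
    [Fintype (Orb N x)] (_ : Fintype.card (Orb N x) = 4 ∨ Fintype.card (Orb N x) = 6)
    (_ : Balanced fun k : Orb N x => k.2.1),
    AlgM p ν j jO (Orb N x) (fun k => tf p ν j k.2.1)

/-- A supersingular elliptic curve with complex multiplication by the imaginary quadratic field
of `N`, if the place of `N` above `p` is unique. -/
def S_ss2 : Prop :=
  S_val →
  ∀ (p : ℕ) [Fact p.Prime] (ν : PadicAlgCl p ≃+* ℂ) (L : Type)
    [Field L] [NumberField L] [IsCMField L] [IsGalois ℚ L] (j : L →+* ℂ)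
    (N : Subgroup (L ≃ₐ[ℚ] L)) (_ : IsImag N) (_ : ¬ Dec p ν j ≤ N),
    (∀ σ, tf p ν j (N : Set (L ≃ₐ[ℚ] L)) σ = 0) ∧
    ∃ (E : RedAV p ν) (_ : Big E.X j) (w : Fin 2 ≃ Wt E.X L), ∀ k, tf p ν j (St j (w k)) = 0

end

end Pool.Agent.W495.TB
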